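import Pool.Agent.N70.EQ.Stm
import Pool.Agent.Y241.WR.Grp

/-!
# Project EQ (helper70), part GS (helper559): subgroups of `G ≀ A_n` transitive on labelled pairs

The first lemmas are adapted from `Pool/Agent/Y241/WR/Grp.lean`.
-/

set_option autoImplicit false

namespace Pool.Agent.N559.EQ

open Pool.Agent.H391R2 Pool.Agent.Y793 Equiv
open Pool.Agent.Y241.WR (alt_le Bs mem_Bs inv_fix)

open scoped commutatorElement

variable {G : Type} [Group G] {n : ℕ}

/-! ### Killing the labels on a set -/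

/-- Elements of `H` over a permutation fixing `S` pointwise. -/
def HS (H : Subgroup (Wr G n)) (S : Finset (Fin n)) : Subgroup (Wr G n) where
  carrier := {x | x ∈ H ∧ ∀ i ∈ S, x.right i = i}
  one_mem' := ⟨H.one_mem, fun _ _ => rfl⟩
  mul_mem' := by
    rintro x y ⟨h1, h2⟩ ⟨h4, h5⟩
    refine ⟨H.mul_mem h1 h4, fun i hi => ?_⟩
    rw [wr_mul_right, Perm.mul_apply, h5 i hi, h2 i hi]
  inv_mem' := by
    rintro x ⟨h1, h2⟩
    refine ⟨H.inv_mem h1, fun i hi => ?_⟩
    rw [SemidirectProduct.inv_right, Perm.inv_eq_iff_eq, h2 i hi]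

/-- Labels on `S`. -/
def chiS (H : Subgroup (Wr G n)) (S : Finset (Fin n)) : HS H S →* (S → G) where
  toFun x := fun i => x.1.left i.1
  map_one' := rfl
  map_mul' := by
    rintro ⟨x, hx⟩ ⟨y, hy⟩
    funext i
    simp only [Subgroup.coe_mul, wr_mul_left, inv_fix (hx.2 i.1 i.2), Pi.mul_apply]

/-- The permutation. -/
def rhoS (H : Subgroup (Wr G n)) (S : Finset (Fin n)) : HS H S →* Perm (Fin n) :=
  SemidirectProduct.rightHom.comp (Subgroup.subtype _)

theorem kill [Finite G] (H : Subgroup (Wr G n)) (S : Finset (Fin n)) (hn : 5 ≤ n - S.card)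
    (hc : 2 * (Nat.card G) ^ S.card < (n - S.card).factorial)
    (hA : ∀ σ : Perm (Fin n), Perm.sign σ = 1 → ∃ x ∈ H, x.right = σ)
    (σ : Perm (Fin n)) (hσ : Perm.sign σ = 1) (hσS : ∀ i ∈ S, σ i = i) :
    ∃ y ∈ H, y.right = σ ∧ ∀ i ∈ S, y.left i = 1 := by
  classical
  set s : Finset (Fin n) := Sᶜ with hs
  have hscard : Nat.card s = n - S.card := by
    rw [Nat.card_eq_fintype_card, Fintype.card_coe, hs, Finset.card_compl, Fintype.card_fin]
  let j : alternatingGroup s →* Perm (Fin n) :=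
    (alternatingGroup (Fin n)).subtype.comp (alternatingGroup.ofSubtype s)
  have hjs : ∀ x, ∀ i ∈ S, (j x) i = i := by
    intro x i hi
    have h1 : (j x).support ⊆ s :=
      (alternatingGroup.mem_range_ofSubtype_iff s (alternatingGroup.ofSubtype s x)).1 ⟨x, rfl⟩
    by_contra h
    have := h1 (Perm.mem_support.2 h)
    rw [hs, Finset.mem_compl] at this
    exact this hi
  have hjsign : ∀ x, Perm.sign (j x) = 1 := fun x =>
    Perm.mem_alternatingGroup.1 (alternatingGroup.ofSubtype s x).2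
  have hlift : ∀ x, ∃ h : HS H S, rhoS H S h = j x := by
    intro x
    obtain ⟨y, hy, hyx⟩ := hA (j x) (hjsign x)
    refine ⟨⟨y, hy, ?_⟩, hyx⟩
    rw [hyx]
    exact hjs x
  set M : Subgroup (alternatingGroup s) := ((chiS H S).ker.map (rhoS H S)).comap j with hM
  have hMn : M.Normal := by
    constructor
    rintro m ⟨y, hy, hym⟩ x
    obtain ⟨h, hh⟩ := hlift x
    refine ⟨h * y * h⁻¹, ?_, ?_⟩
    · exact (chiS H S).normal_ker.conj_mem y hy h
    · rw [map_mul, map_mul, map_inv, hh, hym, map_mul, map_mul, map_inv]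
  rcases alternatingGroup.normal_subgroup_eq_bot_or_eq_top (by rw [hscard]; omega) (N := M) with
    h | h
  · exfalso
    choose l hl using hlift
    have hinj : Function.Injective fun x => chiS H S (l x) := by
      intro x y hxy
      simp only at hxy
      have h1 : x⁻¹ * y ∈ M := by
        refine ⟨(l x)⁻¹ * l y, ?_, ?_⟩
        · change (l x)⁻¹ * l y ∈ (chiS H S).ker
          rw [MonoidHom.mem_ker, map_mul, map_inv, hxy, inv_mul_cancel]
        · rw [map_mul, map_inv, hl, hl, map_mul, map_inv]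
      rw [h, Subgroup.mem_bot] at h1
      exact (inv_mul_eq_one.1 h1)
    have h1 := Nat.card_le_card_of_injective _ hinj
    have : Nontrivial s := by
      rw [← Finite.one_lt_card_iff_nontrivial, hscard]
      omega
    have h2 := two_mul_nat_card_alternatingGroup (α := s)
    rw [Nat.card_perm, hscard] at h2
    rw [Nat.card_fun, Nat.card_eq_fintype_card (α := S), Fintype.card_coe] at h1
    omega
  · have h1 : σ ∈ j.range := by
      have h2 := (alternatingGroup.mem_range_ofSubtype_iff s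
        ⟨σ, Perm.mem_alternatingGroup.2 hσ⟩).2 (by
          intro i hi
          rw [Perm.mem_support] at hi
          rw [hs, Finset.mem_compl]
          exact fun h3 => hi (hσS i h3))
      obtain ⟨x, hx⟩ := h2
      exact ⟨x, congrArg Subtype.val hx⟩
    obtain ⟨x, rfl⟩ := h1
    have h2 : x ∈ M := by rw [h]; trivial
    obtain ⟨y, hy, hyx⟩ := h2
    have h3 : chiS H S y = 1 := hy
    exact ⟨y.1, y.2.1, hyx, fun i hi => congrFun h3 ⟨i, hi⟩⟩

/-! ### Labels at fixed points -/

theorem left_mul {x y : Wr G n} {i : Fin n} (h : x.right i = i) :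
    (x * y).left i = x.left i * y.left i := by
  rw [wr_mul_left, inv_fix h]

theorem left_inv {x : Wr G n} {i : Fin n} (h : x.right i = i) : x⁻¹.left i = (x.left i)⁻¹ := by
  rw [wr_inv_left, h]

theorem conj_inl (z : Wr G n) (k : Fin n → G) :
    z * SemidirectProduct.inl k * z⁻¹ =
      SemidirectProduct.inl (fun i => z.left i * k (z.right⁻¹ i) * (z.left i)⁻¹) := by
  apply SemidirectProduct.ext
  · funext i
    rw [wr_mul_left, wr_mul_left, wr_inv_left]
    have e1 : (z * SemidirectProduct.inl k).right = z.right := by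
      rw [wr_mul_right, SemidirectProduct.right_inl, mul_one]
    rw [e1]
    have e2 : z.right (z.right⁻¹ i) = i := by simp
    rw [e2, SemidirectProduct.left_inl, SemidirectProduct.left_inl]
  · rw [wr_mul_right, wr_mul_right, SemidirectProduct.right_inl, SemidirectProduct.right_inl,
      SemidirectProduct.inv_right, mul_one, mul_inv_cancel]

theorem Bs_conj {H : Subgroup (Wr G n)} {z : Wr G n} (hz : z ∈ H) {k : Fin n → G} (hk : k ∈ Bs H) :
    (fun i => z.left i * k (z.right⁻¹ i) * (z.left i)⁻¹) ∈ Bs H := by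
  rw [mem_Bs, ← conj_inl]
  exact H.mul_mem (H.mul_mem hz hk) (H.inv_mem hz)

/-- The hypothesis obtained from `kill`. -/
def Kl (H : Subgroup (Wr G n)) : Prop :=
  ∀ S : Finset (Fin n), S.card ≤ n / 2 → ∀ σ : Perm (Fin n), Perm.sign σ = 1 →
    (∀ i ∈ S, σ i = i) → ∃ y ∈ H, y.right = σ ∧ ∀ i ∈ S, y.left i = 1

theorem pair_onto {H : Subgroup (Wr G n)} (hn : 4 ≤ n) (hK : Kl H)
    (h1 : ∀ x ∈ H, Perm.sign x.right = 1)
    (h2 : ∀ a b a' b' : Fin n, a ≠ b → a' ≠ b' → ∀ g h : G, ∃ x ∈ H,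
      x.right a = a' ∧ x.right b = b' ∧ x.left a' = g ∧ x.left b' = h)
    {a b : Fin n} (hab : a ≠ b) (g h : G) : ∃ f ∈ Bs H, f a = g ∧ f b = h := by
  obtain ⟨x, hx, hxa, hxb, hx1, hx2⟩ := h2 a b a b hab hab g h
  obtain ⟨y, hy, hyr, hyl⟩ := hK {a, b} (by
    have := Finset.card_le_two (a := a) (b := b)
    omega) x.right (h1 x hx) (by
      intro i hi
      rcases Finset.mem_insert.1 hi with rfl | hi
      · exact hxa
      · rw [Finset.mem_singleton.1 hi]
        exact hxb)
  have hya : y.left a = 1 := hyl a (by simp)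
  have hyb : y.left b = 1 := hyl b (by simp)
  refine ⟨(x * y⁻¹).left, ?_, ?_, ?_⟩
  · rw [mem_Bs]
    have h5 := SemidirectProduct.inl_left_mul_inr_right (x * y⁻¹)
    have hr : (x * y⁻¹).right = 1 := by
      rw [wr_mul_right, SemidirectProduct.inv_right, hyr, mul_inv_cancel]
    rw [hr, map_one, mul_one] at h5
    rw [h5]
    exact H.mul_mem hx (H.inv_mem hy)
  · rw [left_mul hxa, left_inv (by rw [hyr]; exact hxa), hx1, hya, inv_one, mul_one]
  · rw [left_mul hxb, left_inv (by rw [hyr]; exact hxb), hx2, hyb, inv_one, mul_one]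

theorem pick (T : Finset (Fin n)) (h : T.card < n) : ∃ x, x ∉ T := by
  by_contra hc
  push Not at hc
  have : T = Finset.univ := Finset.eq_univ_iff_forall.2 hc
  rw [this, Finset.card_univ, Fintype.card_fin] at h
  exact lt_irrefl _ h

/-- Elements of the base group with small support. -/
theorem five {H : Subgroup (Wr G n)} (hn : 10 ≤ n) (hK : Kl H)
    (h1 : ∀ x ∈ H, Perm.sign x.right = 1)
    (h2 : ∀ a b a' b' : Fin n, a ≠ b → a' ≠ b' → ∀ g h : G, ∃ x ∈ H,
      x.right a = a' ∧ x.right b = b' ∧ x.left a' = g ∧ x.left b' = h)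
    (p : Fin n) (T : Finset (Fin n)) (hpT : p ∉ T) (hT : T.card + 5 ≤ n) (u : G) :
    ∃ A : Finset (Fin n), A.card ≤ 5 ∧ p ∈ A ∧ Disjoint A T ∧ ∃ w ∈ Bs H, w p = u ∧
      ∀ i, i ∉ A → w i = 1 := by
  classical
  have c0 := Finset.card_insert_le p T
  obtain ⟨a, ha⟩ := pick (insert p T) (by omega)
  have c1 := Finset.card_insert_le a (insert p T)
  obtain ⟨b, hb⟩ := pick (insert a (insert p T)) (by omega)
  have c2 := Finset.card_insert_le b (insert a (insert p T))
  obtain ⟨c, hc⟩ := pick (insert b (insert a (insert p T))) (by omega)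
  have c3 := Finset.card_insert_le c (insert b (insert a (insert p T)))
  obtain ⟨d, hd⟩ := pick (insert c (insert b (insert a (insert p T)))) (by omega)
  simp only [Finset.mem_insert, not_or] at ha hb hc hd
  obtain ⟨hap, haT⟩ := ha
  obtain ⟨hba, hbp, hbT⟩ := hb
  obtain ⟨hcb, hca, hcp, hcT⟩ := hc
  obtain ⟨hdc, hdb, hda, hdp, hdT⟩ := hd
  -- `(a p b)` and `(a c d)`
  set A : Finset (Fin n) := {a, p, b, c, d} with hA
  have hA5 : A.card ≤ 5 := Finset.card_le_five
  obtain ⟨S, hS, hSc⟩ := Finset.exists_subset_card_eq (s := Aᶜ) (n := n / 2) (by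
    rw [Finset.card_compl, Fintype.card_fin]
    omega)
  have hS'c : (Aᶜ \ S).card ≤ n / 2 := by
    have hAc : A.card = 5 := by
      rw [hA, Finset.card_insert_of_notMem, Finset.card_insert_of_notMem,
        Finset.card_insert_of_notMem, Finset.card_insert_of_notMem, Finset.card_singleton]
      · simpa using Ne.symm hdc
      · simp [Ne.symm hcb, Ne.symm hdb]
      · simp [Ne.symm hbp, Ne.symm hcp, Ne.symm hdp]
      · simp [hap, Ne.symm hba, Ne.symm hca, Ne.symm hda]
    rw [Finset.card_sdiff_of_subset hS, Finset.card_compl, Fintype.card_fin, hSc]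
    omega
  set c₁ : Perm (Fin n) := swap a p * swap p b with hc₁
  set c₂ : Perm (Fin n) := swap a c * swap c d with hc₂
  have f1 : ∀ i, i ∉ A → c₁ i = i := by
    intro i hi
    rw [hA] at hi
    simp only [Finset.mem_insert, Finset.mem_singleton, not_or] at hi
    obtain ⟨i1, i2, i3, i4, i5⟩ := hi
    rw [hc₁, Perm.mul_apply, swap_apply_of_ne_of_ne i2 i3, swap_apply_of_ne_of_ne i1 i2]
  have f2 : ∀ i, i ∉ A → c₂ i = i := by
    intro i hi
    rw [hA] at hi
    simp only [Finset.mem_insert, Finset.mem_singleton, not_or] at hi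
    obtain ⟨i1, i2, i3, i4, i5⟩ := hi
    rw [hc₂, Perm.mul_apply, swap_apply_of_ne_of_ne i4 i5, swap_apply_of_ne_of_ne i1 i4]
  have s1 : Perm.sign c₁ = 1 := by
    rw [hc₁, Perm.sign_mul, Perm.sign_swap hap, Perm.sign_swap (Ne.symm hbp)]
    rfl
  have s2 : Perm.sign c₂ = 1 := by
    rw [hc₂, Perm.sign_mul, Perm.sign_swap (Ne.symm hca), Perm.sign_swap (Ne.symm hdc)]
    rfl
  obtain ⟨y, hy, hyr, hyl⟩ := hK S hSc.le c₁ s1 fun i hi => f1 i (Finset.mem_compl.1 (hS hi))
  obtain ⟨y', hy', hyr', hyl'⟩ := hK (Aᶜ \ S) hS'c c₂ s2 fun i hi =>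
    f2 i (Finset.mem_compl.1 (Finset.mem_sdiff.1 hi).1)
  set z : Wr G n := y * (y' * (y⁻¹ * y'⁻¹)) with hz
  have hzH : z ∈ H := H.mul_mem hy (H.mul_mem hy' (H.mul_mem (H.inv_mem hy) (H.inv_mem hy')))
  have hzr : z.right = c₁ * (c₂ * (c₁⁻¹ * c₂⁻¹)) := by
    rw [hz, wr_mul_right, wr_mul_right, wr_mul_right, SemidirectProduct.inv_right,
      SemidirectProduct.inv_right, hyr, hyr']
  have hzl : ∀ i, i ∉ A → z.left i = 1 := by
    intro i hi
    have e1 : y.right i = i := by rw [hyr]; exact f1 i hi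
    have e2 : y'.right i = i := by rw [hyr']; exact f2 i hi
    have e3 : y⁻¹.right i = i := by rw [SemidirectProduct.inv_right]; exact inv_fix e1
    rw [hz, left_mul e1, left_mul e2, left_mul e3, left_inv e1, left_inv e2]
    by_cases hiS : i ∈ S
    · rw [hyl i hiS, inv_one, one_mul, one_mul, mul_inv_cancel]
    · rw [hyl' i (Finset.mem_sdiff.2 ⟨Finset.mem_compl.2 hi, hiS⟩), inv_one, one_mul, mul_one,
        mul_inv_cancel]
  have hzp : z.right⁻¹ p = a := by
    rw [Perm.inv_eq_iff_eq, hzr]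
    have g1 : c₂ d = a := by
      rw [hc₂, Perm.mul_apply, swap_apply_right, swap_apply_right]
    have g2 : c₂⁻¹ a = d := by rw [Perm.inv_eq_iff_eq, g1]
    have g3 : c₁ d = d := by
      rw [hc₁, Perm.mul_apply, swap_apply_of_ne_of_ne hdp hdb, swap_apply_of_ne_of_ne hda hdp]
    have g4 : c₁⁻¹ d = d := inv_fix g3
    have g5 : c₁ a = p := by
      rw [hc₁, Perm.mul_apply, swap_apply_of_ne_of_ne hap (Ne.symm hba), swap_apply_left]
    rw [Perm.mul_apply c₁, Perm.mul_apply c₂, Perm.mul_apply c₁⁻¹, g2, g4, g1, g5]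
  have hzi : ∀ i, i ∉ A → z.right⁻¹ i = i := by
    intro i hi
    apply inv_fix
    rw [hzr, Perm.mul_apply c₁, Perm.mul_apply c₂, Perm.mul_apply c₁⁻¹, inv_fix (f2 i hi),
      inv_fix (f1 i hi), f2 i hi, f1 i hi]
  obtain ⟨k, hk, hkp, hka⟩ := pair_onto (by omega) hK h1 h2 (Ne.symm hap) u 1
  refine ⟨A, hA5, by rw [hA]; simp, ?_, k * (fun i => z.left i * k⁻¹ (z.right⁻¹ i) *
    (z.left i)⁻¹), (Bs H).mul_mem hk (Bs_conj hzH ((Bs H).inv_mem hk)), ?_, ?_⟩
  · rw [Finset.disjoint_left]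
    intro i hi
    rw [hA] at hi
    simp only [Finset.mem_insert, Finset.mem_singleton] at hi
    rcases hi with rfl | rfl | rfl | rfl | rfl
    · exact haT
    · exact hpT
    · exact hbT
    · exact hcT
    · exact hdT
  · rw [Pi.mul_apply, hzp, Pi.inv_apply, hka, hkp, inv_one, mul_one, mul_inv_cancel, mul_one]
  · intro i hi
    rw [Pi.mul_apply, hzi i hi, hzl i hi, Pi.inv_apply, inv_one, one_mul, mul_one, mul_inv_cancel]

/-- functions with values in the commutator subgroup -/
theorem comm_mem {H : Subgroup (Wr G n)} (hn : 10 ≤ n) (hK : Kl H)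
    (h1 : ∀ x ∈ H, Perm.sign x.right = 1)
    (h2 : ∀ a b a' b' : Fin n, a ≠ b → a' ≠ b' → ∀ g h : G, ∃ x ∈ H,
      x.right a = a' ∧ x.right b = b' ∧ x.left a' = g ∧ x.left b' = h)
    (f : Fin n → G) (hf : ∀ i, f i ∈ commutator G) : f ∈ Bs H := by
  classical
  refine Subgroup.pi_mem_of_mulSingle_mem f fun p => ?_
  have hT : commutator G ≤ (Bs H).comap (MonoidHom.mulSingle (fun _ : Fin n => G) p) := by
    rw [commutator_def, Subgroup.commutator_le]
    intro u _ v _
    obtain ⟨A, hA5, hpA, -, w, hw, hwp, hwi⟩ := five hn hK h1 h2 p ∅ (Finset.notMem_empty _)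
      (by rw [Finset.card_empty]; omega) u
    obtain ⟨A', -, -, hd, w', hw', hwp', hwi'⟩ := five hn hK h1 h2 p (A.erase p)
      (Finset.notMem_erase _ _) (by rw [Finset.card_erase_of_mem hpA]; omega) v
    have e : ⁅w, w'⁆ = Pi.mulSingle p ⁅u, v⁆ := by
      funext i
      rw [commutatorElement_def]
      simp only [Pi.mul_apply, Pi.inv_apply]
      by_cases hip : i = p
      · subst hip
        rw [Pi.mulSingle_eq_same, hwp, hwp', commutatorElement_def]
      · rw [Pi.mulSingle_eq_of_ne hip]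
        by_cases hiA : i ∈ A
        · rw [hwi' i fun h => (Finset.disjoint_left.1 hd h) (Finset.mem_erase.2 ⟨hip, hiA⟩)]
          simp
        · rw [hwi i hiA]
          simp
    rw [Subgroup.mem_comap]
    change Pi.mulSingle p ⁅u, v⁆ ∈ Bs H
    rw [← e, commutatorElement_def]
    exact (Bs H).mul_mem ((Bs H).mul_mem ((Bs H).mul_mem hw hw') ((Bs H).inv_mem hw))
      ((Bs H).inv_mem hw')
  exact hT (hf p)

/-- the labels modulo the commutator subgroup -/
def abz (n : ℕ) (G : Type) [Group G] : (Fin n → G) →* (Fin n → Abelianization G) :=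
  MonoidHom.compLeft Abelianization.of (Fin n)

theorem abz_apply (f : Fin n → G) (i : Fin n) : abz n G f i = Abelianization.of (f i) := rfl

theorem mem_of_abz {H : Subgroup (Wr G n)}
    (hC : ∀ f : Fin n → G, (∀ i, f i ∈ commutator G) → f ∈ Bs H) {f : Fin n → G}
    (h : abz n G f ∈ (Bs H).map (abz n G)) : f ∈ Bs H := by
  obtain ⟨g, hg, he⟩ := h
  have h3 : g⁻¹ * f ∈ Bs H := by
    apply hC
    intro i
    rw [← Abelianization.ker_of, MonoidHom.mem_ker, Pi.mul_apply, Pi.inv_apply, map_mul, map_inv,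
      ← abz_apply, ← abz_apply, he, inv_mul_cancel]
  have h4 := (Bs H).mul_mem hg h3
  rwa [mul_inv_cancel_left] at h4

theorem two_mem {H : Subgroup (Wr G n)} (hn : 10 ≤ n) (hK : Kl H)
    (hA : ∀ σ : Perm (Fin n), Perm.sign σ = 1 → ∃ x ∈ H, x.right = σ)
    (h1 : ∀ x ∈ H, Perm.sign x.right = 1)
    (h2 : ∀ a b a' b' : Fin n, a ≠ b → a' ≠ b' → ∀ g h : G, ∃ x ∈ H,
      x.right a = a' ∧ x.right b = b' ∧ x.left a' = g ∧ x.left b' = h)
    {p q : Fin n} (hpq : p ≠ q) (U : Abelianization G) :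
    (Pi.mulSingle p U * Pi.mulSingle q U⁻¹ : Fin n → Abelianization G) ∈
      (Bs H).map (abz n G) := by
  classical
  obtain ⟨u, rfl⟩ : ∃ u, Abelianization.of u = U := QuotientGroup.mk_surjective U
  obtain ⟨A, hA5, hpA, hAd, w, hw, hwp, hwi⟩ := five hn hK h1 h2 p {q} (by simpa using hpq)
    (by rw [Finset.card_singleton]; omega) u
  have hqA : q ∉ A := by
    intro h
    exact Finset.disjoint_left.1 hAd h (Finset.mem_singleton_self q)
  have c0 := Finset.card_insert_le q A
  obtain ⟨s, hs⟩ := pick (insert q A) (by omega)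
  have c1 := Finset.card_insert_le s (insert q A)
  obtain ⟨t, ht⟩ := pick (insert s (insert q A)) (by omega)
  simp only [Finset.mem_insert, not_or] at hs ht
  obtain ⟨hsq, hsA⟩ := hs
  obtain ⟨hts, htq, htA⟩ := ht
  have hsp : s ≠ p := fun h => hsA (h ▸ hpA)
  have htp : t ≠ p := fun h => htA (h ▸ hpA)
  obtain ⟨h, hh, hhr⟩ := hA (swap p q * swap s t) (by
    rw [Perm.sign_mul, Perm.sign_swap hpq, Perm.sign_swap (Ne.symm hts)]
    rfl)
  have hinv : h.right⁻¹ = swap p q * swap s t := by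
    rw [hhr, mul_inv_rev, swap_inv, swap_inv]
    have hd : Perm.Disjoint (swap s t) (swap p q) := by
      intro i
      by_cases h3 : i = s ∨ i = t
      · right
        rcases h3 with rfl | rfl
        · exact swap_apply_of_ne_of_ne hsp hsq
        · exact swap_apply_of_ne_of_ne htp htq
      · left
        rw [not_or] at h3
        exact swap_apply_of_ne_of_ne h3.1 h3.2
    exact hd.commute.eq
  refine ⟨w * (fun i => h.left i * w⁻¹ (h.right⁻¹ i) * (h.left i)⁻¹),
    (Bs H).mul_mem hw (Bs_conj hh ((Bs H).inv_mem hw)), ?_⟩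
  funext i
  rw [abz_apply]
  simp only [Pi.mul_apply, Pi.inv_apply, map_mul, map_inv]
  have hab : ∀ x y : Abelianization G, x * y * x⁻¹ = y := by
    intro x y
    rw [mul_comm x y, mul_inv_cancel_right]
  rw [hab]
  rw [hinv, Perm.mul_apply]
  by_cases hip : i = p
  · subst hip
    rw [swap_apply_of_ne_of_ne (Ne.symm hsp) (Ne.symm htp), swap_apply_left, hwp, hwi q hqA,
      Pi.mulSingle_eq_same, Pi.mulSingle_eq_of_ne hpq, map_one, inv_one]
  by_cases hiq : i = q
  · subst hiq
    rw [swap_apply_of_ne_of_ne (Ne.symm hsq) (Ne.symm htq), swap_apply_right, hwp, hwi i hqA,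
      Pi.mulSingle_eq_same, Pi.mulSingle_eq_of_ne hip, map_one]
  rw [Pi.mulSingle_eq_of_ne hip, Pi.mulSingle_eq_of_ne hiq, one_mul]
  by_cases his : i = s
  · subst his
    rw [swap_apply_left, swap_apply_of_ne_of_ne htp htq, hwi i hsA, hwi t htA, map_one, inv_one,
      one_mul]
  by_cases hit : i = t
  · subst hit
    rw [swap_apply_right, swap_apply_of_ne_of_ne hsp hsq, hwi i htA, hwi s hsA, map_one, inv_one,
      one_mul]
  rw [swap_apply_of_ne_of_ne his hit, swap_apply_of_ne_of_ne hip hiq, mul_inv_cancel]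

theorem base_mem {H : Subgroup (Wr G n)} (hn : 10 ≤ n)
    (hC : ∀ f : Fin n → G, (∀ i, f i ∈ commutator G) → f ∈ Bs H)
    (h2 : ∀ p q : Fin n, p ≠ q → ∀ U : Abelianization G,
      (Pi.mulSingle p U * Pi.mulSingle q U⁻¹ : Fin n → Abelianization G) ∈
        (Bs H).map (abz n G))
    (f : Fin n → G) (hf : ∏ i, Abelianization.of (f i) = 1) : f ∈ Bs H := by
  classical
  apply mem_of_abz hC
  set F := abz n G f with hF
  have hF1 : ∏ i, F i = 1 := hf
  let q : Fin n := ⟨0, by omega⟩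
  have e1 : F = ∏ i, (Pi.mulSingle i (F i) * Pi.mulSingle q (F i)⁻¹ :
      Fin n → Abelianization G) := by
    rw [Finset.prod_mul_distrib, Finset.univ_prod_mulSingle]
    have e2 : ∏ i, (Pi.mulSingle q (F i)⁻¹ : Fin n → Abelianization G) =
        Pi.mulSingle q (∏ i, (F i)⁻¹) := by
      exact (map_prod (MonoidHom.mulSingle (fun _ : Fin n => Abelianization G) q) _ _).symm
    rw [e2, Finset.prod_inv_distrib, hF1, inv_one, Pi.mulSingle_one, mul_one]
  rw [e1]
  refine Subgroup.prod_mem _ fun i _ => ?_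
  by_cases hiq : i = q
  · rw [hiq, ← Pi.mulSingle_mul, mul_inv_cancel, Pi.mulSingle_one]
    exact Subgroup.one_mem _
  · exact h2 i q hiq (F i)

/-- the class product -/
def cp (n : ℕ) (G : Type) [Group G] : Wr G n →* Abelianization G where
  toFun w := ∏ i, Abelianization.of (w.left i)
  map_one' := by
    apply Finset.prod_eq_one
    intro i _
    exact map_one _
  map_mul' := by
    intro x y
    simp only [wr_mul_left, map_mul, Finset.prod_mul_distrib]
    congr 1
    exact Equiv.prod_comp (x.right⁻¹) fun i => Abelianization.of (y.left i)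

theorem above {H : Subgroup (Wr G n)} (hn : 5 ≤ n)
    (hA : ∀ σ : Perm (Fin n), Perm.sign σ = 1 → ∃ x ∈ H, x.right = σ)
    (σ : Perm (Fin n)) (hσ : Perm.sign σ = 1) : ∃ y ∈ H, y.right = σ ∧ cp n G y = 1 := by
  have hT : (⊤ : Subgroup (alternatingGroup (Fin n))) ≤
      ((H ⊓ (cp n G).ker).map SemidirectProduct.rightHom).comap
        (alternatingGroup (Fin n)).subtype := by
    rw [← commutator_alternatingGroup_eq_top (by simpa using hn),
      commutator_def, Subgroup.commutator_le]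
    rintro ⟨u, hu⟩ _ ⟨v, hv⟩ _
    obtain ⟨x, hx, hxu⟩ := hA u (Perm.mem_alternatingGroup.1 hu)
    obtain ⟨y, hy, hyv⟩ := hA v (Perm.mem_alternatingGroup.1 hv)
    refine ⟨⁅x, y⁆, ⟨?_, ?_⟩, ?_⟩
    · rw [commutatorElement_def]
      exact H.mul_mem (H.mul_mem (H.mul_mem hx hy) (H.inv_mem hx)) (H.inv_mem hy)
    · change ⁅x, y⁆ ∈ (cp n G).ker
      rw [MonoidHom.mem_ker, map_commutatorElement, commutatorElement_eq_one_iff_mul_comm,
        mul_comm]
    · rw [map_commutatorElement, map_commutatorElement]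
      change ⁅x.right, y.right⁆ = ⁅u, v⁆
      rw [hxu, hyv]
  obtain ⟨y, ⟨hy, hyk⟩, hyr⟩ := hT (Subgroup.mem_top ⟨σ, Perm.mem_alternatingGroup.2 hσ⟩)
  exact ⟨y, hy, hyr, hyk⟩

/-- **GS** -/
theorem t_gs : Pool.Agent.N70.EQ.St_gs := by
  intro G _ _
  -- the constant
  have hlim := FloorSemiring.tendsto_pow_div_factorial_atTop (K := ℝ) (Nat.card G : ℝ)
  have hev := hlim.eventually (gt_mem_nhds (show (0 : ℝ) < 1 / 2 by norm_num))
  obtain ⟨m₀, hm₀⟩ := Filter.eventually_atTop.1 hev
  refine ⟨2 * (m₀ + 10), fun n hn H h1 h2 h3 w hw hwc => ?_⟩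
  have hA := alt_le H h2 h3
  have hK : Kl H := by
    intro S hS σ hσ hσS
    refine kill H S (by omega) ?_ hA σ hσ hσS
    have h4 := hm₀ (n - S.card) (by omega)
    have hf : (0 : ℝ) < ((n - S.card).factorial : ℝ) := by exact_mod_cast Nat.factorial_pos _
    rw [div_lt_iff₀ hf] at h4
    have h5 : 2 * (Nat.card G) ^ (n - S.card) < (n - S.card).factorial := by
      have : (2 : ℝ) * (Nat.card G : ℝ) ^ (n - S.card) < ((n - S.card).factorial : ℝ) := by
        linarith
      exact_mod_cast this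
    have h6 : (Nat.card G) ^ S.card ≤ (Nat.card G) ^ (n - S.card) :=
      Nat.pow_le_pow_right Nat.card_pos (by omega)
    omega
  have hn10 : 10 ≤ n := by omega
  have hC := comm_mem hn10 hK h1 h2
  have hB := base_mem hn10 hC fun p q hpq U => two_mem hn10 hK hA h1 h2 hpq U
  obtain ⟨y, hy, hyr, hyc⟩ := above (by omega) hA w.right hw
  have hr : (w * y⁻¹).right = 1 := by
    rw [wr_mul_right, SemidirectProduct.inv_right, hyr, mul_inv_cancel]
  have h5 := SemidirectProduct.inl_left_mul_inr_right (w * y⁻¹)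
  rw [hr, map_one, mul_one] at h5
  have hcw : cp n G w = 1 := hwc
  have h7 : cp n G (w * y⁻¹) = 1 := by rw [map_mul, map_inv, hyc, hcw, inv_one, mul_one]
  have h6 : w * y⁻¹ ∈ H := by
    rw [← h5]
    exact hB _ h7
  have := H.mul_mem h6 hy
  rwa [inv_mul_cancel_right] at this

end Pool.Agent.N559.EQ
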